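import Pool.Agent.H54.G.W327.RK.FrobA
import Pool.Agent.H54.G.W237.RK.Gal

/-!
# Frobenius elements
-/

set_option autoImplicit false

open Polynomial Pool.Agent.W237.RK
open Pool.Agent.H58P (Qb ht)

namespace Pool.Agent.W327.RK

section
variable {p : ℕ} [Fact p.Prime]

/-- the preimage of a subfield under a ring homomorphism -/
def comapF (φ : Qb →+* PadicAlgCl p) (F : LF p) : GF where
  carrier := {x | φ x ∈ F}
  mul_mem' := fun {a b} ha hb => by
    show φ (a * b) ∈ F
    rw [map_mul]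
    exact mul_mem ha hb
  add_mem' := fun {a b} ha hb => by
    show φ (a + b) ∈ F
    rw [map_add]
    exact add_mem ha hb
  algebraMap_mem' := fun r => by
    show φ (algebraMap ℚ Qb r) ∈ F
    rw [eq_ratCast, map_ratCast]
    exact SubfieldClass.ratCast_mem F r
  inv_mem' := fun a ha => by
    show φ a⁻¹ ∈ F
    rw [map_inv₀]
    exact inv_mem ha

theorem mem_comapF {φ : Qb →+* PadicAlgCl p} {F : LF p} {x : Qb} : x ∈ comapF φ F ↔ φ x ∈ F :=
  Iff.rfl

theorem exists_finset (φ : Qb →+* PadicAlgCl p) (K : GF) (hK : FiniteDimensional ℚ K) :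
    ∃ T : Finset (Om p), (∀ x ∈ K, φ x ∈ IntermediateField.adjoin ℚ_[p] (T : Set (Om p))) ∧
      ∀ t ∈ T, ∃ x ∈ K, φ x = t := by
  classical
  have hfg : K.FG := IntermediateField.essFiniteType_iff.1 inferInstance
  obtain ⟨s, hs⟩ := hfg
  refine ⟨s.image φ, ?_, ?_⟩
  · have h1 : K ≤ comapF φ (IntermediateField.adjoin ℚ_[p] ((s.image φ : Finset (Om p)) :
        Set (Om p))) := by
      rw [← hs, IntermediateField.adjoin_le_iff]
      intro x hx
      exact IntermediateField.subset_adjoin _ _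
        (Finset.mem_coe.2 (Finset.mem_image_of_mem φ (Finset.mem_coe.1 hx)))
    exact fun x hx => h1 hx
  · intro t ht
    obtain ⟨x, hx, rfl⟩ := Finset.mem_image.1 ht
    refine ⟨x, ?_, rfl⟩
    rw [← hs]
    exact IntermediateField.subset_adjoin _ _ (Finset.mem_coe.2 hx)

theorem mem_lev_bot_comap {φ : Qb →+* PadicAlgCl p} {K : GF} {F : LF p} {N : ℕ}
    (hK : ∀ x ∈ K, φ x ∈ F) (hN : ∀ z : Om p, z ^ N = 1 → z ∈ F) :
    ∀ x ∈ lev K ⊥ N 1, φ x ∈ F := by
  have h1 : lev K ⊥ N 1 ≤ comapF φ F := by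
    refine sup_le hK (IntermediateField.adjoin_le_iff.2 ?_)
    rintro x (hx | ⟨g, hg, hx⟩)
    · show φ x ∈ F
      refine hN _ ?_
      rw [← map_pow, show x ^ N = 1 from hx, map_one]
    · show φ x ∈ F
      rw [Subgroup.mem_bot] at hg
      rw [pow_one, hg, Units.val_one] at hx
      rw [hx, map_one]
      exact one_mem F
  exact fun x hx => h1 hx

/-- an element of `L` close to a root of unity of order prime to `p` -/
theorem mem_of_close {L : LF p} {x c : Om p} (hx : x ∈ L) {M : ℕ} (hM : ¬ p ∣ M)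
    (hc : c ^ M = 1) (hxc : ‖x - c‖ < 1) : c ∈ L := by
  refine mem_of_fixed L c fun τ hτ => ?_
  by_contra hne
  have h1 : ‖τ c - c‖ = 1 := norm_sub_root hM (by rw [← map_pow, hc, map_one]) hc hne
  have h2 : ‖x - τ c‖ < 1 := by
    have h3 : x - τ c = τ (x - c) := by rw [map_sub, hτ x hx]
    rw [h3, norm_aut]
    exact hxc
  have h4 := um_sub_lt _ _ hxc h2
  rw [show x - c - (x - τ c) = τ c - c by ring, h1] at h4
  exact lt_irrefl _ h4

/-- the maximal order of the roots of unity (prime to `p`) in a finite extension -/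
theorem exists_order (T : Finset (Om p)) : ∃ M : ℕ, ¬ p ∣ M ∧
    (∀ z : Om p, z ^ M = 1 → z ∈ IntermediateField.adjoin ℚ_[p] (T : Set (Om p))) ∧
    ∀ (N : ℕ) (z : Om p), ¬ p ∣ N → z ^ N = 1 →
      z ∈ IntermediateField.adjoin ℚ_[p] (T : Set (Om p)) → z ^ M = 1 := by
  classical
  have hp : p.Prime := Fact.out
  set L : LF p := IntermediateField.adjoin ℚ_[p] (T : Set (Om p)) with hL
  let P : ℕ → Prop := fun n => ¬ p ∣ n ∧ ∃ c : Om p, IsPrimitiveRoot c n ∧ c ∈ L
  have hP1 : P 1 := ⟨fun h => hp.one_lt.ne' (Nat.dvd_one.1 h), 1, IsPrimitiveRoot.one, one_mem L⟩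
  have hle : ∀ n, P n → n ≤ p ^ nres T := fun n ⟨hn, c, hc, hcL⟩ => order_le T hn hc hcL
  have hPM := Nat.findGreatest_spec (P := P) (hle 1 hP1) hP1
  set M := Nat.findGreatest P (p ^ nres T) with hMdef
  have hmax : ∀ n, P n → n ≤ M := fun n hn => Nat.le_findGreatest (hle n hn) hn
  obtain ⟨hM, c, hc, hcL⟩ := hPM
  have hM0 : M ≠ 0 := by
    intro h
    rw [h] at hM
    exact hM (dvd_zero p)
  have : NeZero M := ⟨hM0⟩
  refine ⟨M, hM, fun z hz => ?_, fun N z hN hz hzL => ?_⟩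
  · obtain ⟨i, -, rfl⟩ := hc.eq_pow_of_pow_eq_one hz
    exact pow_mem hcL i
  · have hN0 : N ≠ 0 := by
      rintro rfl
      exact hN (dvd_zero p)
    have hord : orderOf z ∣ N := orderOf_dvd_iff_pow_eq_one.2 hz
    have hord0 : orderOf z ≠ 0 := fun h => by
      rw [h, zero_dvd_iff] at hord
      exact hN0 hord
    have hordp : ¬ p ∣ orderOf z := fun h => hN (h.trans hord)
    have h1 := (IsPrimitiveRoot.orderOf z).pow_mul_pow_lcm hc hord0 hM0
    have h2 : P ((orderOf z).lcm M) := by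
      refine ⟨?_, _, h1, mul_mem (pow_mem hzL _) (pow_mem hcL _)⟩
      intro h
      rcases (hp.dvd_lcm).1 h with h3 | h3
      · exact hordp h3
      · exact hM h3
    have h3 := hmax _ h2
    have h4 : (orderOf z).lcm M = M :=
      le_antisymm h3 (Nat.le_of_dvd (Nat.pos_of_ne_zero (Nat.lcm_ne_zero hord0 hM0))
        (Nat.dvd_lcm_right _ _))
    exact orderOf_dvd_iff_pow_eq_one.1 (h4 ▸ Nat.dvd_lcm_left (orderOf z) M)

end

/-- Frobenius elements -/
theorem frob : S_RES → S_STRUCT → S_REST → S_FROB := by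
  classical
  intro hR hS hRest p _ φ K hK
  have hp : p.Prime := Fact.out
  have hp1 : (1 : ℝ) < p := by exact_mod_cast hp.one_lt
  have hp0 : (0 : ℝ) < p := zero_lt_one.trans hp1
  obtain ⟨T, hTK, hT⟩ := exists_finset φ K hK
  set k0 : LF p := IntermediateField.adjoin ℚ_[p] (T : Set (Om p)) with hk0
  set k : LF p := kur p ⊔ k0 with hk
  have hfin : FinOver (kur p) k := ⟨T, rfl⟩
  obtain ⟨⟨π, hπ⟩, -, h3⟩ := hS p k hfin
  obtain ⟨-, h4⟩ := h3 (kur p) le_rfl le_sup_left
  have h5 := h4 (p : Om p) π (unif_kur l2) hπ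
  set N := (lorb (kur p) π).ncard with hN
  have hpn : ‖(p : Om p)‖ = (p : ℝ)⁻¹ := by
    have := norm_p_pow (p := p) 1
    rwa [pow_one, pow_one] at this
  rw [hpn] at h5
  refine ⟨max N (nres T), fun M' hM' => ?_⟩
  have hM'0 : M' ≠ 0 := by
    rintro rfl
    exact hM' (dvd_zero p)
  have : NeZero M' := ⟨hM'0⟩
  -- the field `L'`
  obtain ⟨ζ', hζ'⟩ := HasEnoughRootsOfUnity.exists_primitiveRoot (Om p) M'
  obtain ⟨M, hM, hMmem, hMmax⟩ := exists_order (insert ζ' T)
  set L : LF p := IntermediateField.adjoin ℚ_[p] ((insert ζ' T : Finset (Om p)) : Set (Om p))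
    with hL
  have hM0 : M ≠ 0 := by
    rintro rfl
    exact hM (dvd_zero p)
  have : NeZero M := ⟨hM0⟩
  have hk0L : k0 ≤ L := by
    rw [hk0, hL]
    refine IntermediateField.adjoin.mono _ _ _ ?_
    intro x hx
    exact Finset.mem_coe.2 (Finset.mem_insert_of_mem (Finset.mem_coe.1 hx))
  have hζ'L : ζ' ∈ L := IntermediateField.subset_adjoin _ _
    (Finset.mem_coe.2 (Finset.mem_insert_self _ _))
  have hM'M : M' ∣ M := hζ'.dvd_of_pow_eq_one _ (hMmax M' ζ' hM' hζ'.pow_eq_one hζ'L)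
  obtain ⟨ζ, hζ⟩ := HasEnoughRootsOfUnity.exists_primitiveRoot (Om p) M
  obtain ⟨Φ, hΦ⟩ := exists_frob hM hζ.pow_eq_one
  obtain ⟨a, ha0, ha, haT⟩ := pigeon T Φ
  have hΦζ : ∀ z : Om p, z ^ M = 1 → (Φ ^ a) z = z ^ (p ^ a) := by
    intro z hz
    obtain ⟨i, -, rfl⟩ := hζ.eq_pow_of_pow_eq_one hz
    rw [map_pow, frob_iter hΦ, ← pow_mul, ← pow_mul, mul_comm]
  have hΦk0 : LFix k0 (Φ ^ a) := by
    have h6 : k0 ≤ fixF (Φ ^ a) := IntermediateField.adjoin_le_iff.2 haT
    exact h6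
  obtain ⟨σ, hσ⟩ := hRest p φ (Φ ^ a)
  refine ⟨M, σ, a, hM, hM'M, ?_, ha0, le_max_of_le_right ha, ?_, ?_⟩
  · intro x hx
    refine φ.injective ?_
    rw [hσ]
    exact hΦk0 _ (hTK x hx)
  · intro z hz
    refine φ.injective ?_
    rw [hσ, map_pow]
    exact hΦζ _ (by rw [← map_pow, hz, map_one])
  · intro x hx hx1
    have hxL : φ x ∈ L := mem_lev_bot_comap (fun y hy => hk0L (hTK y hy)) hMmem x hx
    obtain ⟨c, hc, hxc⟩ := hR p (φ x) hx1
    have hc' : (Φ ^ a) c = c ^ (p ^ a) := by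
      rcases hc with rfl | ⟨N', hN', hcN'⟩
      · rw [map_zero, zero_pow (pow_ne_zero _ hp.ne_zero)]
      · exact hΦζ c (hMmax N' c hN' hcN' (mem_of_close hxL hN' hcN' hxc))
    set z : Om p := φ (σ x - x ^ (p ^ a)) with hz
    have hzeq : z = (Φ ^ a) (φ x) - (φ x) ^ (p ^ a) := by
      rw [hz, map_sub, hσ, map_pow]
    have hcn : ‖c‖ ≤ 1 := by
      have h7 := um_sub (φ x) (φ x - c) hx1 hxc.le
      rwa [sub_sub_cancel] at h7
    have hz1 : ‖z‖ < 1 := by
      have h8 : z = (Φ ^ a) (φ x - c) - ((φ x) ^ (p ^ a) - c ^ (p ^ a)) := by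
        rw [hzeq, map_sub, hc']
        ring
      rw [h8]
      refine um_sub_lt _ _ ?_ ?_
      · rw [norm_aut]
        exact hxc
      · exact (pow_sub_pow_norm _ _ _ hx1 hcn).trans_lt hxc
    have hzk : z ∈ k := by
      have hLk : L ≤ k := by
        rw [hL, IntermediateField.adjoin_le_iff]
        intro y hy
        rw [Finset.mem_coe, Finset.mem_insert] at hy
        rcases hy with rfl | hy
        · exact (le_sup_left : kur p ≤ k)
            (IntermediateField.subset_adjoin _ _ ⟨M', hM', hζ'.pow_eq_one⟩)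
        · exact (le_sup_right : k0 ≤ k) (IntermediateField.subset_adjoin _ _
            (Finset.mem_coe.2 hy))
      rw [hzeq]
      refine sub_mem ?_ (pow_mem (hLk hxL) _)
      have h9 : L ≤ IntermediateField.comap (Φ ^ a).toAlgHom k := by
        rw [hL, IntermediateField.adjoin_le_iff]
        intro y hy
        rw [Finset.mem_coe, Finset.mem_insert] at hy
        show (Φ ^ a) y ∈ k
        rcases hy with rfl | hy
        · have h10 : y ^ M = 1 := hMmax M' y hM' hζ'.pow_eq_one hζ'L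
          rw [hΦζ y h10]
          exact pow_mem (hLk hζ'L) _
        · rw [haT y hy]
          exact (le_sup_right : k0 ≤ k) (IntermediateField.subset_adjoin _ _
            (Finset.mem_coe.2 hy))
      exact h9 hxL
    have hN0 : 0 < N := (Set.ncard_pos (lorb_finite _ _)).2 ⟨π, self_mem_lorb _ _⟩
    have hzN : ‖z‖ ^ N ≤ (p : ℝ)⁻¹ := by
      by_cases hz0 : z = 0
      · rw [hz0, norm_zero, zero_pow hN0.ne']
        exact (inv_pos.2 hp0).le
      · obtain ⟨-, hπ0, hπ1, hπval⟩ := hπ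
        obtain ⟨w, hw⟩ := hπval z hzk hz0
        have hπpos : 0 < ‖π‖ := norm_pos_iff.2 hπ0
        have hw1 : 0 < w := by
          by_contra hw0
          rw [not_lt] at hw0
          have h11 : ‖π‖ ^ (0 : ℤ) ≤ ‖π‖ ^ w :=
            zpow_le_zpow_right_of_le_one₀ hπpos hπ1.le hw0
          rw [zpow_zero, ← hw] at h11
          exact absurd hz1 (not_lt.2 h11)
        have h12 : ‖z‖ ≤ ‖π‖ := by
          rw [hw]
          calc ‖π‖ ^ w ≤ ‖π‖ ^ (1 : ℤ) :=
                zpow_le_zpow_right_of_le_one₀ hπpos hπ1.le (by omega)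
            _ = ‖π‖ := zpow_one _
        rw [← h5]
        exact pow_le_pow_left₀ (norm_nonneg _) h12 _
    calc ‖z‖ ^ (max N (nres T)) ≤ ‖z‖ ^ N :=
          pow_le_pow_of_le_one (norm_nonneg _) hz1.le (le_max_left _ _)
      _ ≤ _ := hzN

end Pool.Agent.W327.RK
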