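import Pool.Agent.H54.G.W327.RK.L5

/-!
# The different in towers
-/

set_option autoImplicit false

open Polynomial Pool.Agent.W237.RK

namespace Pool.Agent.W327.RK

section
variable {p : ℕ} [Fact p.Prime]

theorem norm_p_pow (n : ℕ) : ‖((p : Om p)) ^ n‖ = ((p : ℝ) ^ n)⁻¹ := by
  have h1 : ((p : ℕ) : Om p) = (((p : ℕ) : ℚ_[p]) : Om p) := by
    norm_cast
  rw [norm_pow, h1, PadicAlgCl.norm_extends, Padic.norm_p, inv_pow]

theorem p_ne_zero : (p : Om p) ≠ 0 := Nat.cast_ne_zero.2 (Fact.out : p.Prime).ne_zero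

/-- an automorphism over `F` fixing a uniformiser of `E` fixes `E` -/
theorem fix_of_fix_unif {F E : LF p} {π : Om p}
    (h : ∀ x ∈ E, ‖x‖ ≤ 1 → ∃ P : (Om p)[X], (∀ j, P.coeff j ∈ F ∧ ‖P.coeff j‖ ≤ 1) ∧
      P.eval π = x) {σ : LAut p} (hσ : LFix F σ) (hσπ : σ π = π) : LFix E σ := by
  intro x hx
  obtain ⟨n, hn⟩ : ∃ n : ℕ, ‖(p : Om p) ^ n * x‖ ≤ 1 := by
    have hp1 : (1 : ℝ) < p := by exact_mod_cast (Fact.out : p.Prime).one_lt
    obtain ⟨n, hn⟩ := pow_unbounded_of_one_lt ‖x‖ hp1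
    refine ⟨n, ?_⟩
    rw [norm_mul, norm_p_pow, inv_mul_le_iff₀ (by positivity), mul_one]
    exact hn.le
  obtain ⟨P, hP, hPe⟩ := h ((p : Om p) ^ n * x)
    (mul_mem (pow_mem (natCast_mem E p) n) hx) hn
  have h1 : σ ((p : Om p) ^ n * x) = (p : Om p) ^ n * x := by
    rw [← hPe, eval_aut hσ P (fun j => (hP j).1), hσπ]
  rw [map_mul, map_pow, map_natCast] at h1
  exact mul_left_cancel₀ (pow_ne_zero n p_ne_zero) h1

end

/-- the different is multiplicative in towers -/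
theorem l6 : S_STRUCT → S_HERB → S_TOWER := by
  classical
  intro hS hH p _ k E L hk hkE hEL hfin πE πL hπE hπL
  obtain ⟨-, hL2, hL3⟩ := hS p L hfin
  obtain ⟨hfinE, -⟩ := hL3 E (hk.trans hkE) hEL
  obtain ⟨-, hE2, -⟩ := hS p E hfinE
  obtain ⟨hπLL, hπL0, hπL1, -⟩ := id hπL
  obtain ⟨hπEE, hπE0, hπE1, -⟩ := id hπE
  obtain ⟨Q, hQ, hQe⟩ := hL2 πL hπL πE (hEL hπEE) hπE1.le
  have hQτ : ∀ τ : LAut p, LFix k τ → Q.eval (τ πL) = τ πE := fun τ hτ => by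
    rw [← eval_aut (LFix.mono hk hτ) Q (fun j => (hQ j).1), hQe]
  have hld : ∀ (F : LF p) (π : Om p), ldiff F π = ∏ y ∈ (orb F π).erase π, ‖π - y‖ := by
    intro F π
    unfold ldiff
    rw [← finprod_mem_coe_finset, Finset.coe_erase, coe_orb]
  rw [hld, hld, hld]
  have hmaps : ∀ y ∈ (orb k πL).erase πL, Q.eval y ∈ orb k πE := by
    intro y hy
    obtain ⟨τ, hτ, rfl⟩ := mem_orb.1 (Finset.mem_of_mem_erase hy)
    rw [hQτ τ hτ]
    exact mem_orb.2 ⟨τ, hτ, rfl⟩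
  rw [← Finset.prod_fiberwise_of_maps_to hmaps,
    ← Finset.mul_prod_erase (orb k πE) _ (mem_orb.2 (self_mem_lorb k πE))]
  -- the fibre over the conjugate `σ πE`
  have hfib : ∀ σ : LAut p, LFix k σ → ∀ y, (y ∈ orb k πL ∧ Q.eval y = σ πE) ↔
      ∃ x ∈ orb E πL, σ x = y := by
    intro σ hσ y
    constructor
    · rintro ⟨hy, hQy⟩
      obtain ⟨τ, hτ, rfl⟩ := mem_orb.1 hy
      rw [hQτ τ hτ] at hQy
      refine ⟨(σ⁻¹ * τ) πL, mem_orb.2 ⟨σ⁻¹ * τ, ?_, rfl⟩, ?_⟩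
      · refine fix_of_fix_unif (hE2 πE hπE)
          (LFix.mono hk (LFix.mul (LFix.inv hσ) hτ)) ?_
        show σ.symm (τ πE) = πE
        rw [hQy]
        exact σ.symm_apply_apply πE
      · exact σ.apply_symm_apply (τ πL)
    · rintro ⟨x, hx, rfl⟩
      obtain ⟨τ, hτ, rfl⟩ := mem_orb.1 hx
      have hτk := LFix.mono hkE hτ
      refine ⟨mem_orb.2 ⟨σ * τ, LFix.mul hσ hτk, rfl⟩, ?_⟩
      have h1 := hQτ (σ * τ) (LFix.mul hσ hτk)
      have h2 : (σ * τ) πE = σ πE := congrArg σ (hτ πE hπEE)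
      rw [h2] at h1
      exact h1
  congr 1
  · refine Finset.prod_congr ?_ fun _ _ => rfl
    ext y
    rw [Finset.mem_filter, Finset.mem_erase, Finset.mem_erase]
    have h1 := hfib 1 (fun _ _ => rfl) y
    constructor
    · rintro ⟨⟨hne, hy⟩, hQy⟩
      obtain ⟨x, hx, hxy⟩ := h1.1 ⟨hy, hQy⟩
      have hxy' : x = y := hxy
      exact ⟨hne, hxy' ▸ hx⟩
    · rintro ⟨hne, hy⟩
      obtain ⟨h2, h3⟩ := h1.2 ⟨y, hy, rfl⟩
      exact ⟨⟨hne, h2⟩, h3⟩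
  · refine Finset.prod_congr rfl fun z hz => ?_
    rw [Finset.mem_erase] at hz
    obtain ⟨hne, hz⟩ := hz
    obtain ⟨σ, hσ, rfl⟩ := mem_orb.1 hz
    rw [← hH p E L (hk.trans hkE) hEL hfin πE πL hπE hπL σ (LFix.mono hk hσ),
      finprod_mem_eq_finite_toFinset_prod _ (lorb_finite E πL)]
    symm
    refine Finset.prod_bij (fun y _ => σ y) (fun y hy => ?_) (fun a _ b _ h => σ.injective h)
      (fun y hy => ?_) (fun _ _ => rfl)
    · obtain ⟨h1, h2⟩ := (hfib σ hσ (σ y)).2 ⟨y, hy, rfl⟩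
      rw [Finset.mem_filter, Finset.mem_erase]
      refine ⟨⟨?_, h1⟩, h2⟩
      intro h3
      rw [h3, hQe] at h2
      exact hne h2.symm
    · rw [Finset.mem_filter, Finset.mem_erase] at hy
      obtain ⟨x, hx, hxy⟩ := (hfib σ hσ y).1 ⟨hy.1.2, hy.2⟩
      exact ⟨x, hx, hxy⟩

end Pool.Agent.W327.RK
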