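import Pool.Agent.H54.G.W237.RK.LDefs

/-!
# Basic facts on the algebraic closure of `ℚ_p`
-/

set_option autoImplicit false

open Polynomial Pool.Agent.W237.RK

namespace Pool.Agent.W327.RK

section
variable {p : ℕ} [Fact p.Prime]

theorem norm_aut (σ : LAut p) (x : Om p) : ‖σ x‖ = ‖x‖ := by
  rw [← PadicAlgCl.spectralNorm_eq, ← PadicAlgCl.spectralNorm_eq]
  exact (spectralNorm_eq_of_equiv σ x).symm

theorem um_add (x y : Om p) {c : ℝ} (hx : ‖x‖ ≤ c) (hy : ‖y‖ ≤ c) : ‖x + y‖ ≤ c :=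
  (IsUltrametricDist.norm_add_le_max x y).trans (max_le hx hy)

theorem um_sub (x y : Om p) {c : ℝ} (hx : ‖x‖ ≤ c) (hy : ‖y‖ ≤ c) : ‖x - y‖ ≤ c := by
  rw [sub_eq_add_neg]
  exact um_add x (-y) hx (by rwa [norm_neg])

theorem um_sum {ι : Type*} (s : Finset ι) (f : ι → Om p) {c : ℝ} (hc : 0 ≤ c)
    (h : ∀ i ∈ s, ‖f i‖ ≤ c) : ‖∑ i ∈ s, f i‖ ≤ c := by
  classical
  induction s using Finset.induction_on with
  | empty => simpa using hc
  | insert a s ha ih =>
    rw [Finset.sum_insert ha]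
    exact um_add _ _ (h a (Finset.mem_insert_self _ _))
      (ih fun i hi => h i (Finset.mem_insert_of_mem hi))

theorem lorb_finite (F : LF p) (x : Om p) : (lorb F x).Finite := by
  classical
  have hne : minpoly ℚ_[p] x ≠ 0 := minpoly.ne_zero (Algebra.IsIntegral.isIntegral x)
  refine ((minpoly ℚ_[p] x).rootSet_finite (Om p)).subset ?_
  rintro _ ⟨σ, -, rfl⟩
  rw [mem_rootSet]
  refine ⟨hne, ?_⟩
  have h1 := (minpoly ℚ_[p] x).aeval_algHom_apply σ.toAlgHom x
  rw [minpoly.aeval, map_zero] at h1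
  exact h1

theorem mem_of_fixed (F : LF p) (x : Om p) (h : ∀ σ, LFix F σ → σ x = x) : x ∈ F := by
  have h1 : IntermediateField.fixedField (F.fixingSubgroup) = F :=
    InfiniteGalois.fixedField_fixingSubgroup F
  rw [← h1, IntermediateField.mem_fixedField_iff]
  intro σ hσ
  refine h σ fun y hy => ?_
  exact (IntermediateField.mem_fixingSubgroup_iff F σ).1 hσ y hy

theorem self_mem_lorb (F : LF p) (x : Om p) : x ∈ lorb F x := ⟨AlgEquiv.refl, fun _ _ => rfl, rfl⟩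

theorem LFix.mul {F : LF p} {σ τ : LAut p} (hσ : LFix F σ) (hτ : LFix F τ) : LFix F (σ * τ) :=
  fun x hx => by
    show σ (τ x) = x
    rw [hτ x hx, hσ x hx]

theorem LFix.inv {F : LF p} {σ : LAut p} (hσ : LFix F σ) : LFix F σ⁻¹ := fun x hx => by
  conv_lhs => rw [← hσ x hx]
  exact σ.symm_apply_apply x

theorem LFix.mono {F E : LF p} (h : F ≤ E) {σ : LAut p} (hσ : LFix E σ) : LFix F σ :=
  fun x hx => hσ x (h hx)

theorem lorb_map {F : LF p} {σ : LAut p} (hσ : LFix F σ) {x y : Om p} (hy : y ∈ lorb F x) :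
    σ y ∈ lorb F x := by
  obtain ⟨τ, hτ, rfl⟩ := hy
  exact ⟨σ * τ, LFix.mul hσ hτ, rfl⟩

theorem lorb_mono {F E : LF p} (h : F ≤ E) (x : Om p) : lorb E x ⊆ lorb F x := by
  rintro _ ⟨σ, hσ, rfl⟩
  exact ⟨σ, LFix.mono h hσ, rfl⟩

theorem lorb_norm {F : LF p} {x y : Om p} (hy : y ∈ lorb F x) : ‖y‖ = ‖x‖ := by
  obtain ⟨σ, -, rfl⟩ := hy
  exact norm_aut σ x

/-- the integral elements -/
def OO (p : ℕ) [Fact p.Prime] : Subring (Om p) where
  carrier := {x | ‖x‖ ≤ 1}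
  mul_mem' := by
    intro a b ha hb
    show ‖a * b‖ ≤ 1
    rw [norm_mul]
    exact mul_le_one₀ ha (norm_nonneg _) hb
  one_mem' := by show ‖(1 : Om p)‖ ≤ 1; rw [norm_one]
  add_mem' := fun {a b} ha hb => um_add a b ha hb
  zero_mem' := by show ‖(0 : Om p)‖ ≤ 1; rw [norm_zero]; exact zero_le_one
  neg_mem' := by
    intro a ha
    show ‖-a‖ ≤ 1
    rw [norm_neg]
    exact ha

theorem mem_OO {x : Om p} : x ∈ OO p ↔ ‖x‖ ≤ 1 := Iff.rfl

/-- polynomials with integral coefficients -/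
def IP (P : (Om p)[X]) : Prop := ∀ j, ‖P.coeff j‖ ≤ 1

theorem IP_iff_lift (P : (Om p)[X]) : IP P ↔ ∃ P₀ : (OO p)[X], P₀.map (OO p).subtype = P := by
  constructor
  · intro h
    have hT : (P.coeffs : Set (Om p)) ⊆ OO p := by
      intro a ha
      rw [Finset.mem_coe, mem_coeffs_iff] at ha
      obtain ⟨i, -, rfl⟩ := ha
      exact h i
    exact ⟨P.toSubring (OO p) hT, map_toSubring P (OO p) hT⟩
  · rintro ⟨P₀, rfl⟩ j
    rw [coeff_map]
    exact (P₀.coeff j).2

theorem IP.mul {P Q : (Om p)[X]} (hP : IP P) (hQ : IP Q) : IP (P * Q) := by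
  obtain ⟨P₀, rfl⟩ := (IP_iff_lift P).1 hP
  obtain ⟨Q₀, rfl⟩ := (IP_iff_lift Q).1 hQ
  exact (IP_iff_lift _).2 ⟨P₀ * Q₀, Polynomial.map_mul _⟩

theorem IP.add {P Q : (Om p)[X]} (hP : IP P) (hQ : IP Q) : IP (P + Q) := by
  intro j
  rw [coeff_add]
  exact um_add _ _ (hP j) (hQ j)

theorem IP.sub {P Q : (Om p)[X]} (hP : IP P) (hQ : IP Q) : IP (P - Q) := by
  intro j
  rw [coeff_sub]
  exact um_sub _ _ (hP j) (hQ j)

theorem IP.C {a : Om p} (ha : ‖a‖ ≤ 1) : IP (C a) := by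
  intro j
  rw [coeff_C]
  split_ifs
  · exact ha
  · simp

theorem IP.X : IP (X : (Om p)[X]) := by
  intro j
  rw [coeff_X]
  split_ifs <;> simp

theorem IP.prod {ι : Type*} (s : Finset ι) (f : ι → (Om p)[X]) (h : ∀ i ∈ s, IP (f i)) :
    IP (∏ i ∈ s, f i) := by
  classical
  induction s using Finset.induction_on with
  | empty =>
    rw [Finset.prod_empty, ← C_1]
    exact IP.C (by rw [norm_one])
  | insert a s ha ih =>
    rw [Finset.prod_insert ha]
    exact (h a (Finset.mem_insert_self _ _)).mul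
      (ih fun i hi => h i (Finset.mem_insert_of_mem hi))

theorem IP.eval {P : (Om p)[X]} (hP : IP P) {x : Om p} (hx : ‖x‖ ≤ 1) : ‖P.eval x‖ ≤ 1 := by
  rw [eval_eq_sum_range]
  refine um_sum _ _ zero_le_one fun i _ => ?_
  rw [norm_mul, norm_pow]
  exact mul_le_one₀ (hP i) (by positivity) (pow_le_one₀ (norm_nonneg _) hx)

theorem IP.map {P : (Om p)[X]} (hP : IP P) (σ : LAut p) : IP (P.map (σ : Om p →+* Om p)) := by
  intro j
  rw [coeff_map]
  show ‖σ (P.coeff j)‖ ≤ 1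
  rw [norm_aut]
  exact hP j

/-- difference of the values of an integral polynomial -/
theorem IP.eval_sub {P : (Om p)[X]} (hP : IP P) {x y : Om p} (hx : ‖x‖ ≤ 1) (hy : ‖y‖ ≤ 1) :
    ‖P.eval x - P.eval y‖ ≤ ‖x - y‖ := by
  rw [eval_eq_sum_range, eval_eq_sum_range, ← Finset.sum_sub_distrib]
  refine um_sum _ _ (norm_nonneg _) fun i _ => ?_
  rw [← mul_sub, norm_mul]
  have h1 : ‖x ^ i - y ^ i‖ ≤ ‖x - y‖ := by
    rw [← (Commute.all x y).geom_sum₂_mul, norm_mul]
    refine mul_le_of_le_one_left (norm_nonneg _) (um_sum _ _ zero_le_one fun j _ => ?_)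
    rw [norm_mul, norm_pow, norm_pow]
    exact mul_le_one₀ (pow_le_one₀ (norm_nonneg _) hx) (by positivity)
      (pow_le_one₀ (norm_nonneg _) hy)
  calc ‖P.coeff i‖ * ‖x ^ i - y ^ i‖ ≤ 1 * ‖x - y‖ :=
        mul_le_mul (hP i) h1 (norm_nonneg _) zero_le_one
    _ = _ := one_mul _

/-- exact division by a monic integral polynomial -/
theorem IP.of_mul {P G H : (Om p)[X]} (hP : IP P) (hG : IP G) (hGm : G.Monic) (h : P = G * H) :
    IP H := by
  obtain ⟨P₀, rfl⟩ := (IP_iff_lift P).1 hP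
  obtain ⟨G₀, rfl⟩ := (IP_iff_lift G).1 hG
  have hinj : Function.Injective (OO p).subtype := Subtype.val_injective
  have hG₀ : G₀.Monic := by
    have := hGm
    unfold Monic at this ⊢
    rw [leadingCoeff_map_of_injective hinj] at this
    exact hinj (this.trans (map_one _).symm)
  have hd : G₀ ∣ P₀ := by
    rw [← Polynomial.map_dvd_map (OO p).subtype hinj hG₀]
    exact ⟨H, h⟩
  obtain ⟨H₀, hH₀⟩ := hd
  have : H = H₀.map (OO p).subtype := by
    have h2 : G₀.map (OO p).subtype * H = G₀.map (OO p).subtype * H₀.map (OO p).subtype := by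
      rw [← h, hH₀, Polynomial.map_mul]
    exact mul_left_cancel₀ hGm.ne_zero h2
  exact (IP_iff_lift H).2 ⟨H₀, this.symm⟩

/-- evaluation of a polynomial over a subfield at conjugate points -/
theorem eval_aut {F : LF p} {σ : LAut p} (hσ : LFix F σ) (P : (Om p)[X]) (hP : ∀ j, P.coeff j ∈ F)
    (x : Om p) : σ (P.eval x) = P.eval (σ x) := by
  rw [eval_eq_sum_range, eval_eq_sum_range, map_sum]
  refine Finset.sum_congr rfl fun i _ => ?_
  rw [map_mul, map_pow, hσ _ (hP i)]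

theorem eval_map_aut (σ : LAut p) (P : (Om p)[X]) (x : Om p) :
    (P.map (σ : Om p →+* Om p)).eval (σ x) = σ (P.eval x) := by
  rw [eval_map]
  exact Polynomial.eval₂_at_apply (σ : Om p →+* Om p) x

end

/-- automorphisms preserve the norm -/
theorem s_inv : S_INV := fun _ _ σ x => norm_aut σ x

end Pool.Agent.W327.RK
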