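import Pool.Agent.H54.G.W327.RK.L2
import Pool.Agent.H54.G.W327.RK.L9

/-!
# Frobenius elements over `ℚ_p`
-/

set_option autoImplicit false

open Polynomial Pool.Agent.W237.RK

namespace Pool.Agent.W327.RK

section
variable {p : ℕ} [Fact p.Prime]

theorem norm_p_lt : ‖(p : Om p)‖ < 1 := by
  have h2 : ‖(p : Om p)‖ = (p : ℝ)⁻¹ := by
    have := norm_p_pow (p := p) 1
    rwa [pow_one, pow_one] at this
  rw [h2]
  exact inv_lt_one_of_one_lt₀ (by exact_mod_cast (Fact.out : p.Prime).one_lt)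

theorem um_add_lt (x y : Om p) {c : ℝ} (hx : ‖x‖ < c) (hy : ‖y‖ < c) : ‖x + y‖ < c :=
  (IsUltrametricDist.norm_add_le_max x y).trans_lt (max_lt hx hy)

theorem um_sub_lt (x y : Om p) {c : ℝ} (hx : ‖x‖ < c) (hy : ‖y‖ < c) : ‖x - y‖ < c := by
  rw [sub_eq_add_neg]
  exact um_add_lt x (-y) hx (by rwa [norm_neg])

theorem um_sum_lt {ι : Type*} (s : Finset ι) (f : ι → Om p) {c : ℝ} (hc : 0 < c)
    (h : ∀ i ∈ s, ‖f i‖ < c) : ‖∑ i ∈ s, f i‖ < c := by
  classical
  induction s using Finset.induction_on with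
  | empty => simpa using hc
  | insert a s ha ih =>
    rw [Finset.sum_insert ha]
    exact um_add_lt _ _ (h a (Finset.mem_insert_self _ _))
      (ih fun i hi => h i (Finset.mem_insert_of_mem hi))

theorem pow_sub_pow_norm (x y : Om p) (n : ℕ) (hx : ‖x‖ ≤ 1) (hy : ‖y‖ ≤ 1) :
    ‖x ^ n - y ^ n‖ ≤ ‖x - y‖ := by
  rw [← (Commute.all x y).geom_sum₂_mul, norm_mul]
  refine mul_le_of_le_one_left (norm_nonneg _) (um_sum _ _ zero_le_one fun j _ => ?_)
  rw [norm_mul, norm_pow, norm_pow]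
  exact mul_le_one₀ (pow_le_one₀ (norm_nonneg _) hx) (by positivity)
    (pow_le_one₀ (norm_nonneg _) hy)

theorem fro_add (x y : Om p) (hx : ‖x‖ ≤ 1) (hy : ‖y‖ ≤ 1) :
    ‖(x + y) ^ p - (x ^ p + y ^ p)‖ < 1 := by
  obtain ⟨r, hr⟩ := exists_add_pow_prime_eq (Fact.out : p.Prime) (⟨x, hx⟩ : OO p) ⟨y, hy⟩
  have h1 := congrArg (fun z : OO p => (z : Om p)) hr
  simp only [Subring.coe_add, Subring.coe_pow, Subring.coe_mul, Subring.coe_natCast] at h1
  rw [h1, add_sub_cancel_left, norm_mul, norm_mul, norm_mul]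
  have h2 : ‖(r : Om p)‖ ≤ 1 := r.2
  calc ‖(p : Om p)‖ * ‖x‖ * ‖y‖ * ‖(r : Om p)‖ ≤ ‖(p : Om p)‖ * 1 * 1 * 1 := by gcongr
    _ < 1 := by simpa using norm_p_lt (p := p)

theorem fro_sum {ι : Type*} (s : Finset ι) (f : ι → Om p) (h : ∀ i ∈ s, ‖f i‖ ≤ 1) :
    ‖(∑ i ∈ s, f i) ^ p - ∑ i ∈ s, f i ^ p‖ < 1 := by
  classical
  induction s using Finset.induction_on with
  | empty =>
    rw [Finset.sum_empty, Finset.sum_empty, zero_pow (Fact.out : p.Prime).ne_zero, sub_zero,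
      norm_zero]
    exact zero_lt_one
  | insert a s ha ih =>
    rw [Finset.sum_insert ha, Finset.sum_insert ha]
    have h1 := fro_add (f a) (∑ i ∈ s, f i) (h a (Finset.mem_insert_self _ _))
      (um_sum _ _ zero_le_one fun i hi => h i (Finset.mem_insert_of_mem hi))
    have h2 := ih fun i hi => h i (Finset.mem_insert_of_mem hi)
    have h3 := um_add_lt _ _ h1 h2
    refine lt_of_eq_of_lt ?_ h3
    congr 1
    ring

/-- Fermat -/
theorem fermat (a : ℚ_[p]) (ha : ‖a‖ ≤ 1) : ‖a ^ p - a‖ < 1 := by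
  set b : ℤ_[p] := ⟨a, ha⟩ with hb
  have h1 : b ^ p - b ∈ RingHom.ker (PadicInt.toZMod (p := p)) := by
    rw [RingHom.mem_ker, map_sub, map_pow, ZMod.pow_card, sub_self]
  rw [PadicInt.ker_toZMod, IsLocalRing.mem_maximalIdeal, PadicInt.mem_nonunits] at h1
  have h2 : ‖((b ^ p - b : ℤ_[p]) : ℚ_[p])‖ < 1 := h1
  simpa using h2

theorem exists_frob {M : ℕ} (hM : ¬ p ∣ M) {ζ : Om p} (hζ : ζ ^ M = 1) :
    ∃ Φ : LAut p, Φ ζ = ζ ^ p := by
  have hM0 : M ≠ 0 := by
    rintro rfl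
    exact hM (dvd_zero p)
  have hζn := norm_root hM0 hζ
  set G := gpol ⊥ ζ with hG
  have hGI : IP G := gpol_IP ⊥ hζn.le
  have h1 : ‖G.eval (ζ ^ p) - (G.eval ζ) ^ p‖ < 1 := by
    have h2 : ∀ j ∈ Finset.range (G.natDegree + 1), ‖G.coeff j * ζ ^ j‖ ≤ 1 := by
      intro j _
      rw [norm_mul, norm_pow, hζn, one_pow, mul_one]
      exact hGI j
    have h3 := fro_sum (Finset.range (G.natDegree + 1)) (fun j => G.coeff j * ζ ^ j) h2
    have h4 : ‖∑ j ∈ Finset.range (G.natDegree + 1), (G.coeff j * ζ ^ j) ^ p -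
        ∑ j ∈ Finset.range (G.natDegree + 1), G.coeff j * (ζ ^ p) ^ j‖ < 1 := by
      rw [← Finset.sum_sub_distrib]
      refine um_sum_lt _ _ zero_lt_one fun j _ => ?_
      have h5 : (G.coeff j * ζ ^ j) ^ p - G.coeff j * (ζ ^ p) ^ j =
          (G.coeff j ^ p - G.coeff j) * (ζ ^ p) ^ j := by
        rw [mul_pow, ← pow_mul, ← pow_mul, mul_comm j p]
        ring
      rw [h5, norm_mul, norm_pow, norm_pow, hζn, one_pow, one_pow, mul_one]
      obtain ⟨a, ha⟩ := IntermediateField.mem_bot.1 (gpol_coeff_mem ⊥ ζ j)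
      have h6 : ‖a‖ ≤ 1 := by
        have h7 : ‖algebraMap ℚ_[p] (Om p) a‖ = ‖a‖ := PadicAlgCl.norm_extends p a
        rw [← h7, ha]
        exact hGI j
      have h8 := fermat a h6
      have h9 : ‖algebraMap ℚ_[p] (Om p) (a ^ p - a)‖ = ‖a ^ p - a‖ :=
        PadicAlgCl.norm_extends p _
      rw [← h9, map_sub, map_pow, ha] at h8
      exact h8
    have h10 := um_add_lt _ _ h3 h4
    rw [eval_eq_sum_range, eval_eq_sum_range, norm_sub_rev]
    refine lt_of_eq_of_lt ?_ h10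
    congr 1
    ring
  rw [hG, gpol_eval_self, zero_pow (Fact.out : p.Prime).ne_zero, sub_zero] at h1
  -- some factor vanishes
  by_contra hcon
  have h2 : ‖(gpol ⊥ ζ).eval (ζ ^ p)‖ = 1 := by
    unfold gpol
    rw [eval_prod, norm_prod]
    refine Finset.prod_eq_one fun y hy => ?_
    obtain ⟨σ, hσ, rfl⟩ := mem_orb.1 hy
    rw [eval_sub, eval_X, eval_C]
    refine norm_sub_root hM ?_ ?_ ?_
    · rw [← pow_mul, mul_comm, pow_mul, hζ, one_pow]
    · rw [← map_pow, hζ, map_one]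
    · intro h3
      exact hcon ⟨σ, h3.symm⟩
  rw [h2] at h1
  exact lt_irrefl _ h1

theorem frob_iter {Φ : LAut p} {ζ : Om p} (h : Φ ζ = ζ ^ p) (j : ℕ) :
    (Φ ^ j) ζ = ζ ^ (p ^ j) := by
  induction j with
  | zero => simp
  | succ j ih =>
    rw [pow_succ', pow_succ]
    show Φ ((Φ ^ j) ζ) = _
    rw [ih, map_pow, h, ← pow_mul, mul_comm]

/-- the number of restrictions of automorphisms to a finite set -/
noncomputable def nres (T : Finset (Om p)) : ℕ := ∏ t ∈ T, (orb ⊥ t).card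

theorem nres_pos (T : Finset (Om p)) : 0 < nres T :=
  Finset.prod_pos fun t _ => Finset.card_pos.2 ⟨t, mem_orb.2 (self_mem_lorb _ _)⟩

theorem LFix_bot (σ : LAut p) : LFix ⊥ σ := by
  intro x hx
  obtain ⟨a, rfl⟩ := IntermediateField.mem_bot.1 hx
  exact σ.commutes a

theorem pigeon (T : Finset (Om p)) (Φ : LAut p) :
    ∃ a, 0 < a ∧ a ≤ nres T ∧ ∀ t ∈ T, (Φ ^ a) t = t := by
  classical
  have h1 : (Fintype.piFinset fun t : T => orb ⊥ (t : Om p)).card <
      (Finset.range (nres T + 1)).card := by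
    rw [Fintype.card_piFinset, Finset.card_range]
    have h2 : ∏ t : T, (orb ⊥ (t : Om p)).card = nres T := by
      unfold nres
      exact Finset.prod_coe_sort T fun t => (orb ⊥ t).card
    rw [h2]
    exact Nat.lt_succ_self _
  obtain ⟨i, hi, j, hj, hne, heq⟩ := Finset.exists_ne_map_eq_of_card_lt_of_maps_to h1
    (f := fun (i : ℕ) (t : T) => (Φ ^ i) (t : Om p)) (fun i _ => by
      rw [Finset.mem_coe, Fintype.mem_piFinset]
      intro t
      exact mem_orb.2 ⟨Φ ^ i, LFix_bot _, rfl⟩)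
  have key : ∀ i j : ℕ, i < j → j ∈ Finset.range (nres T + 1) →
      ((fun t : T => (Φ ^ i) (t : Om p)) = fun t : T => (Φ ^ j) (t : Om p)) →
      ∃ a, 0 < a ∧ a ≤ nres T ∧ ∀ t ∈ T, (Φ ^ a) t = t := by
    intro i j hij hj heq
    rw [Finset.mem_range] at hj
    refine ⟨j - i, by omega, by omega, fun t ht => ?_⟩
    have h3 := congrFun heq ⟨t, ht⟩
    have h4 : (Φ ^ i) t = (Φ ^ j) t := h3
    have h5 : (Φ ^ j) t = (Φ ^ i) ((Φ ^ (j - i)) t) := by
      have h6 : Φ ^ j = Φ ^ i * Φ ^ (j - i) := by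
        rw [← pow_add]
        congr 1
        omega
      rw [h6]
      rfl
    rw [h5] at h4
    exact ((Φ ^ i).injective h4).symm
  rcases lt_or_gt_of_ne hne with h | h
  · exact key i j h hj heq
  · exact key j i h hi heq.symm

/-- the orders of the roots of unity (prime to `p`) in a finite extension are bounded -/
theorem order_le (T : Finset (Om p)) {M : ℕ} (hM : ¬ p ∣ M) {c : Om p}
    (hc : IsPrimitiveRoot c M) (hcT : c ∈ IntermediateField.adjoin ℚ_[p] (T : Set (Om p))) :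
    M ≤ p ^ nres T := by
  have hp : p.Prime := Fact.out
  obtain ⟨Φ, hΦ⟩ := exists_frob hM hc.pow_eq_one
  obtain ⟨a, ha0, ha, haT⟩ := pigeon T Φ
  have h1 : (Φ ^ a) c = c := by
    have h2 : IntermediateField.adjoin ℚ_[p] (T : Set (Om p)) ≤ fixF (Φ ^ a) :=
      IntermediateField.adjoin_le_iff.2 haT
    exact h2 hcT
  rw [frob_iter hΦ] at h1
  have hM0 : M ≠ 0 := by
    rintro rfl
    exact hM (dvd_zero p)
  have hc0 : c ≠ 0 := by
    rintro rfl
    have := hc.pow_eq_one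
    rw [zero_pow hM0] at this
    exact zero_ne_one this
  have hpa : 1 < p ^ a := Nat.one_lt_pow ha0.ne' hp.one_lt
  have h3 : c ^ (p ^ a - 1) = 1 := by
    have h4 : c ^ (p ^ a - 1) * c = 1 * c := by
      rw [← pow_succ, one_mul, show p ^ a - 1 + 1 = p ^ a by omega, h1]
    exact mul_right_cancel₀ hc0 h4
  have h5 := Nat.le_of_dvd (by omega) (hc.dvd_of_pow_eq_one _ h3)
  have h6 : p ^ a ≤ p ^ nres T := Nat.pow_le_pow_right hp.pos ha
  omega

end

end Pool.Agent.W327.RK
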